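import Pool.Agent.H86.IR.Targets1

set_option autoImplicit false

open Complex Topology Filter InnerProductSpace MeasureTheory Laplacian
open scoped OnePoint

namespace Pool.Agent.H31.IR

open Pool.Agent.H86.IR

theorem mh : T_MH := by
  intro f φ z hφ hf
  obtain ⟨R, hR, hball⟩ := Metric.eventually_nhds_iff_ball.mp hf.eventually
  obtain ⟨F, hF1, hF2⟩ := HarmonicOnNhd.exists_analyticOnNhd_ball_re_eq
    (z := φ z) (R := R) (f := f) (fun y hy => hball y hy)
  have h1 : ∀ᶠ w in 𝓝 z, φ w ∈ Metric.ball (φ z) R :=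
    hφ.continuousAt.preimage_mem_nhds (Metric.ball_mem_nhds _ hR)
  have h2 : (fun w => f (φ w)) =ᶠ[𝓝 z] (fun w => (F (φ w)).re) := by
    filter_upwards [h1] with w hw
    exact (hF2 hw).symm
  rw [harmonicAt_congr_nhds h2]
  exact AnalyticAt.harmonicAt_re (f := fun w => F (φ w))
    ((hF1 _ (Metric.mem_ball_self hR)).comp hφ)

end Pool.Agent.H31.IR
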