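import Pool.Agent.H86.IR.Targets1

set_option autoImplicit false

open Complex Topology Filter InnerProductSpace MeasureTheory Laplacian
open scoped OnePoint

namespace Pool.Agent.H31.IR

open Pool.Agent.H86.IR

lemma mob_ne (p w : ℂ) (hw : w ≠ 0) : mob p w = ((p + w⁻¹ : ℂ) : OnePoint ℂ) := if_neg hw

lemma analyticAt_phi (p w : ℂ) (hw : w ≠ 0) : AnalyticAt ℂ (fun w => p + w⁻¹) w :=
  analyticAt_const.add (analyticAt_id.inv hw)

theorem mm (hMH : T_MH) : T_MM := by
  intro B a p g γ hB ha hp hg hlim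
  have hap : a ≠ p := by
    rintro rfl
    exact hp ha
  have hap' : a - p ≠ 0 := sub_ne_zero.mpr hap
  have hb0 : (a - p)⁻¹ ≠ 0 := inv_ne_zero hap'
  have hφb : p + ((a - p)⁻¹)⁻¹ = a := by rw [inv_inv]; ring
  refine ⟨?_, ?_⟩
  · intro w hw hwb
    by_cases hw0 : w = 0
    · subst hw0
      have hmob0 : mob p 0 = ∞ := if_pos rfl
      rw [hmob0] at hw
      have h1 : HarmonicAt (fun w : ℂ => g (inv1 w)) 0 := by
        rcases hg.harm ∞ hw (OnePoint.infty_ne_coe a) with ⟨z, hz, -⟩ | ⟨-, h⟩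
        · exact absurd hz (OnePoint.infty_ne_coe z)
        · exact h
      have hφ0 : (0 : ℂ) / (1 + p * 0) = 0 := by simp
      have hφa : AnalyticAt ℂ (fun w : ℂ => w / (1 + p * w)) 0 := by
        apply AnalyticAt.div analyticAt_id
          (analyticAt_const.add (analyticAt_const.mul analyticAt_id))
        simp
      have h2 : HarmonicAt (fun w : ℂ => g (inv1 (w / (1 + p * w)))) 0 := by
        apply hMH (fun w => g (inv1 w)) (fun w : ℂ => w / (1 + p * w)) 0 hφa
        rw [hφ0]
        exact h1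
      have hne : ∀ᶠ w in 𝓝 (0 : ℂ), 1 + p * w ≠ 0 := by
        have hc : ContinuousAt (fun w : ℂ => 1 + p * w) 0 := by fun_prop
        apply hc.eventually_ne
        simp
      rw [harmonicAt_congr_nhds (f₂ := fun w : ℂ => g (inv1 (w / (1 + p * w))))]
      · exact h2
      · filter_upwards [hne] with w hw
        by_cases hw0 : w = 0
        · subst hw0
          simp [mob, inv1]
        · have hq : w / (1 + p * w) ≠ 0 := div_ne_zero hw0 hw
          have e : (w / (1 + p * w))⁻¹ = p + w⁻¹ := by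
            field_simp
            ring
          show g (mob p w) = g (inv1 (w / (1 + p * w)))
          rw [mob_ne p w hw0, inv1, if_neg hq, e]
    · rw [mob_ne p w hw0] at hw
      have hne : ((p + w⁻¹ : ℂ) : OnePoint ℂ) ≠ (a : OnePoint ℂ) := by
        intro h
        have h1 : p + w⁻¹ = a := OnePoint.coe_injective h
        apply hwb
        rw [← h1]
        simp
      have h1 : HarmonicAt (fun w : ℂ => g (w : OnePoint ℂ)) (p + w⁻¹) := by
        rcases hg.harm _ hw hne with ⟨z, hz, h⟩ | ⟨h, -⟩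
        · rw [OnePoint.coe_injective hz]
          exact h
        · exact absurd h (OnePoint.coe_ne_infty _)
      have h2 := hMH (fun w : ℂ => g (w : OnePoint ℂ)) (fun w => p + w⁻¹) w
        (analyticAt_phi p w hw0) h1
      have hev : ∀ᶠ w' in 𝓝 w, w' ≠ 0 := isOpen_ne.mem_nhds hw0
      rw [harmonicAt_congr_nhds (f₂ := fun w : ℂ => g ((p + w⁻¹ : ℂ) : OnePoint ℂ))]
      · exact h2
      · filter_upwards [hev] with w' hw'
        rw [mob_ne p w' hw']
  · obtain ⟨H0, hH0, hev⟩ := hg.pole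
    have hcont : ContinuousAt H0 a := hH0.1.continuousAt
    have hH0a : H0 a = γ := by
      have h1 : Tendsto (fun z : ℂ => g (z : OnePoint ℂ) + Real.log ‖z - a‖) (𝓝[≠] a)
          (𝓝 (H0 a)) := by
        have h2 : Tendsto H0 (𝓝[≠] a) (𝓝 (H0 a)) := hcont.tendsto.mono_left nhdsWithin_le_nhds
        apply h2.congr'
        filter_upwards [hev] with z hz
        rw [hz]
        ring
      exact tendsto_nhds_unique h1 hlim
    refine ⟨fun w => H0 (p + w⁻¹) + Real.log ‖w‖ + Real.log ‖(a - p)⁻¹‖, ?_, ?_, ?_⟩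
    · have h1 : HarmonicAt (fun w => H0 (p + w⁻¹)) (a - p)⁻¹ := by
        apply hMH H0 (fun w => p + w⁻¹) _ (analyticAt_phi p _ hb0)
        rw [hφb]
        exact hH0
      have h2 : HarmonicAt (fun w : ℂ => Real.log ‖w‖) (a - p)⁻¹ :=
        AnalyticAt.harmonicAt_log_norm (f := fun w => w) analyticAt_id hb0
      exact (h1.add h2).add (harmonicAt_const _)
    · show H0 (p + ((a - p)⁻¹)⁻¹) + Real.log ‖(a - p)⁻¹‖ + Real.log ‖(a - p)⁻¹‖ =
        γ - 2 * Real.log ‖a - p‖
      rw [hφb, hH0a, norm_inv, Real.log_inv]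
      ring
    · have hne0 : ∀ᶠ w in 𝓝[≠] (a - p)⁻¹, w ≠ 0 :=
        mem_nhdsWithin_of_mem_nhds (isOpen_ne.mem_nhds hb0)
      have htend : Tendsto (fun w : ℂ => p + w⁻¹) (𝓝[≠] (a - p)⁻¹) (𝓝[≠] a) := by
        apply tendsto_nhdsWithin_of_tendsto_nhds_of_eventually_within
        · have h1 := (analyticAt_phi p _ hb0).continuousAt.tendsto
          rw [hφb] at h1
          exact h1.mono_left nhdsWithin_le_nhds
        · filter_upwards [hne0, self_mem_nhdsWithin] with w hw0 hwb
          intro h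
          apply hwb
          have h1 : p + w⁻¹ = a := h
          show w = (a - p)⁻¹
          rw [← h1]
          simp
      filter_upwards [htend.eventually hev, hne0, self_mem_nhdsWithin] with w hw hw0 hwb
      have hwb' : w ≠ (a - p)⁻¹ := hwb
      show g (mob p w) = H0 (p + w⁻¹) + Real.log ‖w‖ + Real.log ‖(a - p)⁻¹‖ -
        Real.log ‖w - (a - p)⁻¹‖
      rw [mob_ne p w hw0, hw]
      have e : p + w⁻¹ - a = (w - (a - p)⁻¹) * (-(a - p)) / w := by
        field_simp
        ring
      have hsub : w - (a - p)⁻¹ ≠ 0 := sub_ne_zero.mpr hwb'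
      rw [e, norm_div, norm_mul, norm_neg, Real.log_div (mul_ne_zero (norm_ne_zero_iff.mpr hsub)
        (norm_ne_zero_iff.mpr hap')) (norm_ne_zero_iff.mpr hw0), Real.log_mul
        (norm_ne_zero_iff.mpr hsub) (norm_ne_zero_iff.mpr hap'), norm_inv, Real.log_inv]
      ring

end Pool.Agent.H31.IR
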