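import Pool.Agent.H86.IR.Targets1

set_option autoImplicit false

open Complex Topology Filter InnerProductSpace MeasureTheory Laplacian
open scoped OnePoint

namespace Pool.Agent.H31.IR

open Pool.Agent.H86.IR

theorem mob (hMC : T_MC) (hMK : T_MK) (hMM : T_MM) : T_MOB := by
  intro B a p g γ hB ha hp hg hlim
  have hap : a ≠ p := by
    rintro rfl
    exact hp ha
  have hb0 : (a - p)⁻¹ ≠ 0 := inv_ne_zero (sub_ne_zero.mpr hap)
  obtain ⟨h1, h2⟩ := hMM B a p g γ hB ha hp hg hlim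
  refine ⟨hB.preimage (hMC p), ?_, ?_, h2, ?_⟩
  · show Pool.Agent.H86.IR.mob p (a - p)⁻¹ ∈ B
    have e : Pool.Agent.H86.IR.mob p (a - p)⁻¹ = (a : OnePoint ℂ) := by
      rw [Pool.Agent.H86.IR.mob, if_neg hb0, inv_inv]
      congr 1
      ring
    rw [e]
    exact ha
  · intro w hw hwb
    exact h1 w hw hwb
  · intro δ hδ
    exact hMK B a p g hB ha hp hg δ hδ

end Pool.Agent.H31.IR
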